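import Pool.Agent.Y153.TZ2.Low
import Pool.Agent.Results.MP_727445_co.ZigzagTernary
import Pool.Agent.Results.MP_727445_co.ConjectureFails

/-!
# Sharper bounds for `g_3(k)`

`√((9 ^ k - 1) / (8 k)) ≤ g_3(k) ≤ (20 / 3) * 3 ^ k / k ^ (1/3)` for all `k ≥ 1`.  The lower bound
comes from the sharp inequality `∑ b ∈ B, b ^ 2 ≥ (9 ^ |B| - 1) / 8` for the admissible sets `B`.
-/

set_option autoImplicit false

namespace Pool.Agent.Results.MP_727445_co.SharperBounds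

open Finset
open Pool.Agent.H521R3.TZ Pool.Agent.Y153.TZ2
open Pool.Agent.Results.MP_727445_co.ZigzagTernary (subsetSums HasAP g not_hasAP_of_noRel
  noRel_of_not_hasAP g_mem g_mul_le g_three_mul_le)

lemma nine_pow_le (k : ℕ) (hk : 1 ≤ k) : 9 ^ k ≤ 8 * k * g 3 k ^ 2 + 1 := by
  obtain ⟨B, h1, h2, h3, h4⟩ := g_mem hk
  have h5 := sum_sq_lower B h4
  rw [h1] at h5
  have h6 : 9 ^ k ≤ 8 * ∑ x ∈ B, x ^ 2 + 1 := by exact_mod_cast h5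
  have h7 : ∑ x ∈ B, x ^ 2 ≤ k * g 3 k ^ 2 := by
    calc ∑ x ∈ B, x ^ 2 ≤ ∑ x ∈ B, g 3 k ^ 2 :=
          Finset.sum_le_sum fun x hx => Nat.pow_le_pow_left (h3 x hx) 2
      _ = k * g 3 k ^ 2 := by rw [Finset.sum_const, smul_eq_mul, h1]
  calc 9 ^ k ≤ 8 * ∑ x ∈ B, x ^ 2 + 1 := h6
    _ ≤ 8 * (k * g 3 k ^ 2) + 1 := by omega
    _ = 8 * k * g 3 k ^ 2 + 1 := by ring

lemma lower' (k : ℕ) (hk : 1 ≤ k) : √(((9 : ℝ) ^ k - 1) / (8 * k)) ≤ g 3 k := by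
  have h1 := nine_pow_le k hk
  have hk' : (0 : ℝ) < k := by exact_mod_cast hk
  have h2 : (9 : ℝ) ^ k ≤ 8 * k * (g 3 k : ℝ) ^ 2 + 1 := by exact_mod_cast h1
  apply Real.sqrt_le_iff.mpr
  refine ⟨by positivity, ?_⟩
  rw [div_le_iff₀ (by positivity)]
  linarith

lemma g_le_fifteen (k : ℕ) (hk : 15 ≤ k) : (g 3 k : ℝ) ≤ 0.5431 * 3 ^ (k - 1) :=
  ConjectureFails.result.2.2 k hk

/-- the largest `p` with `184 p ^ 3 ≤ k` -/
lemma exists_p (k : ℕ) (h : 184 ≤ k) :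
    ∃ p : ℕ, 1 ≤ p ∧ 184 * p ^ 3 ≤ k ∧ k < 184 * (p + 1) ^ 3 := by
  have hP : ∃ n : ℕ, k < 184 * (n + 1) ^ 3 := by
    refine ⟨k, ?_⟩
    have : k + 1 ≤ (k + 1) ^ 3 := by
      calc k + 1 = (k + 1) ^ 1 := (pow_one _).symm
        _ ≤ (k + 1) ^ 3 := Nat.pow_le_pow_right (by omega) (by norm_num)
    omega
  classical
  refine ⟨Nat.find hP, ?_, ?_, Nat.find_spec hP⟩
  · by_contra hlt
    have h0 : Nat.find hP = 0 := by omega
    have := Nat.find_spec hP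
    rw [h0] at this
    omega
  · by_contra hlt
    push Not at hlt
    have hpos : 1 ≤ Nat.find hP := by
      by_contra h0
      have h0' : Nat.find hP = 0 := by omega
      have := Nat.find_spec hP
      rw [h0'] at this
      omega
    have := Nat.find_min hP (m := Nat.find hP - 1) (by omega)
    apply this
    have e : Nat.find hP - 1 + 1 = Nat.find hP := by omega
    rw [e]
    exact hlt

lemma upper' (k : ℕ) (hk : 1 ≤ k) :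
    (g 3 k : ℝ) ≤ 20 / 3 * 3 ^ k / (k : ℝ) ^ (1 / 3 : ℝ) := by
  have hk' : (0 : ℝ) < k := by exact_mod_cast hk
  have hr : 0 < (k : ℝ) ^ (1 / 3 : ℝ) := Real.rpow_pos_of_pos hk' _
  have hcube : ((k : ℝ) ^ (1 / 3 : ℝ)) ^ 3 = k := by
    rw [← Real.rpow_natCast, ← Real.rpow_mul hk'.le]
    norm_num
  have hg0 : (0 : ℝ) ≤ g 3 k := by positivity
  have h3k : (0 : ℝ) < 3 ^ k := by positivity
  have key : ∀ u : ℝ, 0 ≤ u → (k : ℝ) ≤ u ^ 3 → (k : ℝ) ^ (1 / 3 : ℝ) ≤ u := by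
    intro u hu h
    refine le_of_pow_le_pow_left₀ (n := 3) (by norm_num) hu ?_
    rw [hcube]
    exact h
  rw [le_div_iff₀ hr]
  rcases Nat.lt_or_ge k 15 with h | h
  · have h1 := key 3 (by norm_num) (by
      have : (k : ℝ) ≤ 15 := by exact_mod_cast h.le
      norm_num
      linarith)
    have h2 : (3 : ℝ) * g 3 k ≤ 3 ^ k := by exact_mod_cast g_three_mul_le k hk
    calc (g 3 k : ℝ) * (k : ℝ) ^ (1 / 3 : ℝ) ≤ g 3 k * 3 := mul_le_mul_of_nonneg_left h1 hg0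
      _ ≤ 20 / 3 * 3 ^ k := by linarith
  rcases Nat.lt_or_ge k 39744 with h' | h'
  · have h1 := key 35 (by norm_num) (by
      have : (k : ℝ) ≤ 39744 := by exact_mod_cast h'.le
      norm_num
      linarith)
    have h2 := g_le_fifteen k h
    have h3 : (3 : ℝ) ^ k = 3 * 3 ^ (k - 1) := by
      rw [← pow_succ']
      congr 1
      omega
    have h4 : (0 : ℝ) < 3 ^ (k - 1) := by positivity
    calc (g 3 k : ℝ) * (k : ℝ) ^ (1 / 3 : ℝ) ≤ g 3 k * 35 := mul_le_mul_of_nonneg_left h1 hg0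
      _ ≤ 20 / 3 * 3 ^ k := by rw [h3]; nlinarith
  · obtain ⟨p, hp, h1, h2⟩ := exists_p k (by omega)
    have hp6 : 6 ≤ p := by
      by_contra hlt
      have h5 : p + 1 ≤ 6 := by omega
      have h6 : (p + 1) ^ 3 ≤ 6 ^ 3 := Nat.pow_le_pow_left h5 3
      omega
    have h3 := g_mul_le p hp k h1
    have h3' : (p : ℝ) * g 3 k ≤ 3 ^ k := by exact_mod_cast h3
    have hp' : (6 : ℝ) ≤ p := by exact_mod_cast hp6
    have h4 : (k : ℝ) ^ (1 / 3 : ℝ) ≤ 20 / 3 * p := by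
      apply key _ (by positivity)
      have h6 : (k : ℝ) ≤ 184 * ((p : ℝ) + 1) ^ 3 := by exact_mod_cast h2.le
      have h7 : ((p : ℝ) + 1) ^ 3 ≤ (7 / 6 * p) ^ 3 :=
        pow_le_pow_left₀ (by positivity) (by linarith) 3
      have h8 : (0 : ℝ) ≤ (p : ℝ) ^ 3 := by positivity
      calc (k : ℝ) ≤ 184 * ((p : ℝ) + 1) ^ 3 := h6
        _ ≤ 184 * (7 / 6 * p) ^ 3 := by linarith
        _ = 184 * (7 / 6) ^ 3 * (p : ℝ) ^ 3 := by ring
        _ ≤ (20 / 3) ^ 3 * (p : ℝ) ^ 3 := mul_le_mul_of_nonneg_right (by norm_num) h8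
        _ = (20 / 3 * p) ^ 3 := by ring
    calc (g 3 k : ℝ) * (k : ℝ) ^ (1 / 3 : ℝ) ≤ g 3 k * (20 / 3 * p) :=
          mul_le_mul_of_nonneg_left h4 hg0
      _ = 20 / 3 * (p * g 3 k) := by ring
      _ ≤ 20 / 3 * 3 ^ k := by linarith

/-- **Main result.** `√((9 ^ k - 1) / (8 k)) ≤ g_3(k) ≤ (20 / 3) * 3 ^ k / k ^ (1/3)` for all
`k ≥ 1`; hence for every `c` one has `g_3(k) < 3 ^ (k - c)` for all large `k`; and
`g_3(k) = 3 ^ (k - 1)` holds only for `k = 1, 2`. -/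
theorem result :
    (∀ k : ℕ, 1 ≤ k → √(((9 : ℝ) ^ k - 1) / (8 * k)) ≤ g 3 k ∧
      (g 3 k : ℝ) ≤ 20 / 3 * 3 ^ k / (k : ℝ) ^ (1 / 3 : ℝ)) ∧
    (∀ c : ℝ, ∃ k₀ : ℕ, ∀ k : ℕ, k₀ ≤ k → (g 3 k : ℝ) < (3 : ℝ) ^ ((k : ℝ) - c)) ∧
    (∀ k : ℕ, 1 ≤ k → (g 3 k = 3 ^ (k - 1) ↔ k ≤ 2)) :=
  ⟨fun k hk => ⟨lower' k hk, upper' k hk⟩, ZigzagTernary.result.2.2, ConjectureFails.result.1⟩

end Pool.Agent.Results.MP_727445_co.SharperBounds
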